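import Pool.Agent.H487.GA.Stm2

/-!
Bounds for the truncated Poisson kernel and its Fourier transform (`S_KB`).
-/

set_option autoImplicit false


open Complex Filter Topology Set MeasureTheory

namespace Pool.Agent.H331.GA

open Pool.Agent.H487.GA (FF C2c chi Fy S_KB)

/-! ### General facts on `FF` (from `H203/ME/VAR`) -/

theorem hcs {F : ℝ → ℝ} (h : ∀ x : ℝ, 1 ≤ |x| → F x = 0) : HasCompactSupport F := by
  refine HasCompactSupport.intro (isCompact_Icc (a := (-1 : ℝ)) (b := 1)) (fun x hx => h x ?_)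
  by_contra h1
  push Not at h1
  exact hx ⟨(abs_lt.1 h1).1.le, (abs_lt.1 h1).2.le⟩

theorem nrm_exp (x : ℝ) : ‖cexp (-(((x : ℝ) : ℂ) * I))‖ = 1 := by
  rw [← neg_mul, ← Complex.ofReal_neg]
  exact Complex.norm_exp_ofReal_mul_I _

theorem cont_e (ξ : ℝ) : Continuous (fun s : ℝ => cexp (-(((ξ * s : ℝ) : ℂ) * I))) := by fun_prop

/-- integrability of the product of an integrable function and a bounded function -/
theorem int_e {F : ℝ → ℝ} (hF : Integrable F) (ξ : ℝ) :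
    Integrable (fun s : ℝ => (F s : ℂ) * cexp (-(((ξ * s : ℝ) : ℂ) * I))) := by
  refine hF.ofReal.mul_bdd (c := 1) (cont_e ξ).aestronglyMeasurable
    (Eventually.of_forall fun s => ?_)
  rw [nrm_exp]

theorem int_mul {F : ℝ → ℝ} (hc : Continuous F) (hs : HasCompactSupport F) (g : ℝ → ℂ)
    (hg : Continuous g) : Integrable (fun s : ℝ => (F s : ℂ) * g s) := by
  apply Continuous.integrable_of_hasCompactSupport
  · exact (Complex.continuous_ofReal.comp hc).mul hg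
  · have h1 : HasCompactSupport (fun s : ℝ => (F s : ℂ)) :=
      hs.comp_left (g := fun x : ℝ => (x : ℂ)) (by simp)
    exact h1.mul_right

theorem le_l1 {F : ℝ → ℝ} (ξ : ℝ) : ‖FF F ξ‖ ≤ ∫ x : ℝ, |F x| := by
  unfold FF
  refine (norm_integral_le_integral_norm _).trans (le_of_eq ?_)
  congr 1
  funext s
  rw [norm_mul, nrm_exp, mul_one, Complex.norm_real, Real.norm_eq_abs]

/-- transform of the derivative -/
theorem FF_der {F F' : ℝ → ℝ} (hd : ∀ x, HasDerivAt F (F' x) x) (hi : Integrable F)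
    (hi' : Integrable F') (ξ : ℝ) : FF F' ξ = I * ξ * FF F ξ := by
  have h1 := integral_mul_deriv_eq_deriv_mul_of_integrable (A := ℂ)
    (u := fun s : ℝ => (F s : ℂ)) (v := fun s : ℝ => cexp (-(((ξ * s : ℝ) : ℂ) * I)))
    (u' := fun s : ℝ => ((F' s : ℝ) : ℂ))
    (v' := fun s : ℝ => cexp (-(((ξ * s : ℝ) : ℂ) * I)) * (-((ξ : ℂ) * I)))
    (fun x _ => (hd x).ofReal_comp) (fun x _ => by
      have h2 : HasDerivAt (fun s : ℝ => -(((ξ * s : ℝ) : ℂ) * I)) (-((ξ : ℂ) * I)) x := by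
        have h3 : HasDerivAt (fun s : ℝ => ((ξ * s : ℝ) : ℂ)) (ξ : ℂ) x := by
          have := ((hasDerivAt_id x).const_mul ξ).ofReal_comp
          simpa using this
        exact (h3.mul_const I).neg
      exact h2.cexp)
    (by
      have h4 := (int_e hi ξ).mul_const (-((ξ : ℂ) * I))
      refine h4.congr (Eventually.of_forall fun s => ?_)
      simp only [Pi.mul_apply]
      ring)
    (int_e hi' ξ) (int_e hi ξ)
  have h2 : FF F' ξ = ∫ s : ℝ, ((F' s : ℝ) : ℂ) * cexp (-(((ξ * s : ℝ) : ℂ) * I)) := rfl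
  rw [h2]
  have h3 : (∫ s : ℝ, (F s : ℂ) * (cexp (-(((ξ * s : ℝ) : ℂ) * I)) * (-((ξ : ℂ) * I)))) =
      (-((ξ : ℂ) * I)) * FF F ξ := by
    rw [FF, ← integral_const_mul]
    congr 1
    funext s
    ring
  have h4 : (∫ s : ℝ, ((F' s : ℝ) : ℂ) * cexp (-(((ξ * s : ℝ) : ℂ) * I))) =
      -((-((ξ : ℂ) * I)) * FF F ξ) := by
    rw [← h3]
    linear_combination h1
  rw [h4]
  ring

/-- two integrations by parts -/
theorem FF_two {F F' F'' : ℝ → ℝ} (hd : ∀ x, HasDerivAt F (F' x) x)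
    (hd' : ∀ x, HasDerivAt F' (F'' x) x) (hi : Integrable F) (hi' : Integrable F')
    (hi'' : Integrable F'') (ξ : ℝ) : ξ ^ 2 * ‖FF F ξ‖ ≤ ∫ x : ℝ, |F'' x| := by
  have h3 := FF_der hd hi hi' ξ
  have h4 := FF_der hd' hi' hi'' ξ
  have h5 : FF F'' ξ = -(ξ : ℂ) ^ 2 * FF F ξ := by
    rw [h4, h3]
    linear_combination ((ξ : ℂ) ^ 2 * FF F ξ) * I_sq
  have h6 : ‖FF F'' ξ‖ = ξ ^ 2 * ‖FF F ξ‖ := by
    rw [h5, norm_mul, norm_neg, norm_pow, Complex.norm_real, Real.norm_eq_abs, sq_abs]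
  rw [← h6]
  exact le_l1 ξ

theorem FF_hasDeriv {F : ℝ → ℝ} (hc : Continuous F) (hs : HasCompactSupport F) (ξ : ℝ) :
    HasDerivAt (FF F) (-I * FF (fun s => s * F s) ξ) ξ := by
  have h0 : HasCompactSupport (fun s => s * F s) := hs.mul_left
  have h1 := hasDerivAt_integral_of_dominated_loc_of_deriv_le (μ := volume) (𝕜 := ℝ)
    (F := fun (ξ : ℝ) (s : ℝ) => (F s : ℂ) * cexp (-(((ξ * s : ℝ) : ℂ) * I)))
    (F' := fun (ξ : ℝ) (s : ℝ) => (F s : ℂ) * (cexp (-(((ξ * s : ℝ) : ℂ) * I)) * (-((s : ℂ) * I))))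
    (bound := fun s => ‖((s * F s : ℝ) : ℂ) * 1‖) (x₀ := ξ) (s := univ) univ_mem
    (Eventually.of_forall fun x => (int_mul hc hs _ (cont_e x)).aestronglyMeasurable)
    (int_mul hc hs _ (cont_e ξ))
    ((int_mul hc hs _ ((cont_e ξ).mul (by fun_prop))).aestronglyMeasurable)
    (Eventually.of_forall fun s x _ => by
      rw [norm_mul, norm_mul, nrm_exp, one_mul, norm_neg, norm_mul, Complex.norm_I, mul_one, mul_one,
        Complex.norm_real, Complex.norm_real, Complex.norm_real, norm_mul, mul_comm])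
    ((int_mul (by fun_prop) h0 (fun _ => 1) continuous_const).norm)
    (Eventually.of_forall fun s x _ => by
      have h2 : HasDerivAt (fun ξ : ℝ => -(((ξ * s : ℝ) : ℂ) * I)) (-((s : ℂ) * I)) x := by
        have h3 : HasDerivAt (fun ξ : ℝ => ((ξ * s : ℝ) : ℂ)) (s : ℂ) x := by
          have := ((hasDerivAt_id x).mul_const s).ofReal_comp
          simpa using this
        exact (h3.mul_const I).neg
      exact (h2.cexp).const_mul _)
  have h2 := h1.2
  have h3 : (∫ s : ℝ, (F s : ℂ) * (cexp (-(((ξ * s : ℝ) : ℂ) * I)) * (-((s : ℂ) * I)))) =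
      -I * FF (fun s => s * F s) ξ := by
    rw [FF, ← integral_const_mul]
    congr 1
    funext s
    push_cast
    ring
  rw [h3] at h2
  exact h2

theorem FF_cont {F : ℝ → ℝ} (hc : Continuous F) (hs : HasCompactSupport F) : Continuous (FF F) :=
  continuous_iff_continuousAt.2 fun ξ => (FF_hasDeriv hc hs ξ).continuousAt

theorem FF_deriv {F : ℝ → ℝ} (hc : Continuous F) (hs : HasCompactSupport F) :
    deriv (FF F) = fun ξ => -I * FF (fun s => s * F s) ξ :=
  funext fun ξ => (FF_hasDeriv hc hs ξ).deriv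

/-! ### The two dominating functions -/

/-- the Poisson kernel -/
noncomputable def w (y x : ℝ) : ℝ := y / (x ^ 2 + y ^ 2)

theorem w_eq {y : ℝ} (hy : 0 < y) : w y = fun x => y⁻¹ * (1 + (x / y) ^ 2)⁻¹ := by
  funext x
  unfold w
  have h1 : x ^ 2 + y ^ 2 ≠ 0 := by positivity
  have h2 : 1 + (x / y) ^ 2 ≠ 0 := by positivity
  field_simp
  ring

theorem w_int {y : ℝ} (hy : 0 < y) : Integrable (w y) := by
  rw [w_eq hy]
  exact (integrable_inv_one_add_sq.comp_div hy.ne').const_mul _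

theorem w_integral {y : ℝ} (hy : 0 < y) : ∫ x, w y x = Real.pi := by
  rw [w_eq hy, integral_const_mul,
    MeasureTheory.Measure.integral_comp_div (fun x : ℝ => (1 + x ^ 2)⁻¹) y,
    integral_univ_inv_one_add_sq, abs_of_pos hy, smul_eq_mul, ← mul_assoc, inv_mul_cancel₀ hy.ne',
    one_mul]

theorem w_nonneg {y : ℝ} (hy : 0 < y) (x : ℝ) : 0 ≤ w y x := by
  unfold w
  positivity

theorem dom {y : ℝ} (hy : 0 < y) (f : ℝ → ℝ) (α β : ℝ)
    (h : ∀ x, |f x| ≤ α * w y x + β * (1 + x ^ 2)⁻¹) :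
    ∫ x, |f x| ≤ (α + β) * Real.pi := by
  have h1 : Integrable (fun x => α * w y x + β * (1 + x ^ 2)⁻¹) :=
    ((w_int hy).const_mul α).add (integrable_inv_one_add_sq.const_mul β)
  have h2 : ∫ x, |f x| ≤ ∫ x, (α * w y x + β * (1 + x ^ 2)⁻¹) :=
    integral_mono_of_nonneg (Eventually.of_forall fun x => abs_nonneg _) h1
      (Eventually.of_forall h)
  rw [integral_add ((w_int hy).const_mul α) (integrable_inv_one_add_sq.const_mul β),
    integral_const_mul, integral_const_mul, w_integral hy, integral_univ_inv_one_add_sq] at h2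
  linarith

theorem dom_int {y : ℝ} (hy : 0 < y) (f : ℝ → ℝ) (hf : Continuous f) (α β : ℝ)
    (h : ∀ x, |f x| ≤ α * w y x + β * (1 + x ^ 2)⁻¹) : Integrable f := by
  have h1 : Integrable (fun x => α * w y x + β * (1 + x ^ 2)⁻¹) :=
    ((w_int hy).const_mul α).add (integrable_inv_one_add_sq.const_mul β)
  exact Integrable.mono' h1 hf.aestronglyMeasurable (Eventually.of_forall h)

/-! ### The Fourier transform of the Poisson kernel -/

theorem lap_ft {a : ℝ} (ha : 0 < a) (t : ℝ) :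
    Integrable (fun x : ℝ => ((Real.exp (-(a * |x|)) : ℝ) : ℂ) * cexp (-(((t * x : ℝ) : ℂ) * I))) ∧
    ∫ x : ℝ, ((Real.exp (-(a * |x|)) : ℝ) : ℂ) * cexp (-(((t * x : ℝ) : ℂ) * I)) =
      ((2 * a / (a ^ 2 + t ^ 2) : ℝ) : ℂ) := by
  have hpa : (0 : ℝ) < ((a : ℂ) - (t : ℂ) * I).re := by simpa using ha
  have hpb : (-(a : ℂ) - (t : ℂ) * I).re < 0 := by simpa using ha
  have ha0 : ((a : ℂ) - (t : ℂ) * I) ≠ 0 := by
    intro h
    rw [h] at hpa
    exact lt_irrefl _ hpa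
  have hb0 : (-(a : ℂ) - (t : ℂ) * I) ≠ 0 := by
    intro h
    rw [h] at hpb
    exact lt_irrefl _ hpb
  have e1 : Set.EqOn (fun x : ℝ => ((Real.exp (-(a * |x|)) : ℝ) : ℂ) *
      cexp (-(((t * x : ℝ) : ℂ) * I)))
      (fun x : ℝ => cexp (((a : ℂ) - (t : ℂ) * I) * x)) (Set.Iic 0) := by
    intro x hx
    have hx' : x ≤ 0 := hx
    simp only
    rw [abs_of_nonpos hx', Complex.ofReal_exp, ← Complex.exp_add]
    congr 1
    push_cast
    ring
  have e2 : Set.EqOn (fun x : ℝ => ((Real.exp (-(a * |x|)) : ℝ) : ℂ) *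
      cexp (-(((t * x : ℝ) : ℂ) * I)))
      (fun x : ℝ => cexp ((-(a : ℂ) - (t : ℂ) * I) * x)) (Set.Ioi 0) := by
    intro x hx
    have hx' : 0 < x := hx
    simp only
    rw [abs_of_pos hx', Complex.ofReal_exp, ← Complex.exp_add]
    congr 1
    push_cast
    ring
  have i1 := integrableOn_exp_mul_complex_Iic hpa 0
  have i2 := integrableOn_exp_mul_complex_Ioi hpb 0
  have j1 := i1.congr_fun e1.symm measurableSet_Iic
  have j2 := i2.congr_fun e2.symm measurableSet_Ioi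
  constructor
  · rw [← integrableOn_univ, ← Set.Iic_union_Ioi (a := (0 : ℝ))]
    exact j1.union j2
  · rw [← intervalIntegral.integral_Iic_add_Ioi j1 j2, setIntegral_congr_fun measurableSet_Iic e1,
      setIntegral_congr_fun measurableSet_Ioi e2, integral_exp_mul_complex_Iic hpa,
      integral_exp_mul_complex_Ioi hpb, Complex.ofReal_zero, mul_zero, mul_zero, Complex.exp_zero]
    have h0 : ((a : ℂ) ^ 2 + (t : ℂ) ^ 2) ≠ 0 := by
      have h1 : (0 : ℝ) < a ^ 2 + t ^ 2 := by positivity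
      exact_mod_cast h1.ne'
    have hmul : ((a : ℂ) - (t : ℂ) * I) * (-(a : ℂ) - (t : ℂ) * I) =
        -((a : ℂ) ^ 2 + (t : ℂ) ^ 2) := by
      ring_nf
      rw [Complex.I_sq]
      ring
    have e3 : (1 : ℂ) / ((a : ℂ) - (t : ℂ) * I) + -1 / (-(a : ℂ) - (t : ℂ) * I) =
        -(2 * a) / (((a : ℂ) - (t : ℂ) * I) * (-(a : ℂ) - (t : ℂ) * I)) := by
      field_simp
      ring
    rw [e3, hmul, neg_div_neg_eq]
    push_cast
    ring

/-- **Fourier transform of the Poisson kernel.** -/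
theorem FF_w {y : ℝ} (hy : 0 < y) (ξ : ℝ) (hξ : 0 < ξ) :
    FF (w y) ξ = ((Real.pi * Real.exp (-(y * ξ)) : ℝ) : ℂ) := by
  obtain ⟨f, hf⟩ : ∃ f : ℝ → ℂ, f = fun x : ℝ => ((Real.exp (-(y * |x|)) : ℝ) : ℂ) := ⟨_, rfl⟩
  have hfc : Continuous f := by
    rw [hf]
    fun_prop
  have hfi : Integrable f := by
    have h1 := (lap_ft hy 0).1
    rw [hf]
    refine h1.congr (Eventually.of_forall fun x => ?_)
    simp only [zero_mul, Complex.ofReal_zero, neg_zero, Complex.exp_zero, mul_one]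
  have hft : FourierTransform.fourier f = fun u : ℝ =>
      ((2 * y / (y ^ 2 + (2 * Real.pi * u) ^ 2) : ℝ) : ℂ) := by
    funext u
    rw [Real.fourier_real_eq_integral_exp_smul, ← (lap_ft hy (2 * Real.pi * u)).2, hf]
    congr 1
    funext x
    rw [smul_eq_mul, mul_comm]
    congr 2
    push_cast
    ring
  have hg : (fun u : ℝ => ((2 * y / (y ^ 2 + (2 * Real.pi * u) ^ 2) : ℝ) : ℂ)) =
      fun u : ℝ => ((2 * w y (2 * Real.pi * u) : ℝ) : ℂ) := by
    funext u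
    congr 1
    unfold w
    rw [add_comm (y ^ 2)]
    ring
  have h2pi : (2 * Real.pi) ≠ 0 := by positivity
  have hgi : Integrable (FourierTransform.fourier f) := by
    rw [hft, hg]
    have h1 : Integrable (fun u : ℝ => 2 * w y (2 * Real.pi * u)) :=
      ((w_int hy).comp_mul_left' h2pi).const_mul 2
    exact h1.ofReal
  have hinv := hfc.fourierInv_fourier_eq hfi hgi
  have h3 := congrFun hinv (-ξ)
  rw [Real.fourierInv_eq', hft, hg] at h3
  have h4 : f (-ξ) = ((Real.exp (-(y * ξ)) : ℝ) : ℂ) := by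
    rw [hf]
    simp only
    rw [abs_neg, abs_of_pos hξ]
  rw [h4] at h3
  have h5 : (∫ v : ℝ, cexp (((2 * Real.pi * inner ℝ v (-ξ) : ℝ) : ℂ) * I) •
      ((2 * w y (2 * Real.pi * v) : ℝ) : ℂ)) =
      ∫ v : ℝ, (fun x : ℝ => (2 : ℂ) * ((w y x : ℂ) * cexp (-(((ξ * x : ℝ) : ℂ) * I))))
        (2 * Real.pi * v) := by
    congr 1
    funext v
    simp only
    rw [smul_eq_mul, real_inner_eq_re_inner]
    simp only [RCLike.inner_apply, conj_trivial, RCLike.re_to_real]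
    have e : ((2 * Real.pi * (-ξ * v) : ℝ) : ℂ) * I = -(((ξ * (2 * Real.pi * v) : ℝ) : ℂ) * I) := by
      push_cast
      ring
    rw [e]
    push_cast
    ring
  rw [h5, MeasureTheory.Measure.integral_comp_mul_left
    (fun x : ℝ => (2 : ℂ) * ((w y x : ℂ) * cexp (-(((ξ * x : ℝ) : ℂ) * I)))) (2 * Real.pi),
    integral_const_mul] at h3
  have h6 : FF (w y) ξ = ∫ x : ℝ, (w y x : ℂ) * cexp (-(((ξ * x : ℝ) : ℂ) * I)) := rfl
  rw [← h6, abs_of_pos (by positivity)] at h3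
  have h7 : FF (w y) ξ = (Real.pi : ℂ) * (((2 * Real.pi)⁻¹ : ℝ) • ((2 : ℂ) * FF (w y) ξ)) := by
    rw [Complex.real_smul]
    push_cast
    have hpi : (Real.pi : ℂ) ≠ 0 := by exact_mod_cast Real.pi_ne_zero
    field_simp
  rw [h7, h3]
  push_cast
  ring

/-! ### The kernel and its derivatives -/

/-- the kernel -/
noncomputable def p0 (y x : ℝ) : ℝ := y ^ 2 / (x ^ 2 + y ^ 2)
/-- its derivative -/
noncomputable def p1 (y x : ℝ) : ℝ := -(2 * x * y ^ 2) / (x ^ 2 + y ^ 2) ^ 2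
/-- its second derivative -/
noncomputable def p2 (y x : ℝ) : ℝ := y ^ 2 * (6 * x ^ 2 - 2 * y ^ 2) / (x ^ 2 + y ^ 2) ^ 3

theorem s_der (y x : ℝ) : HasDerivAt (fun x : ℝ => x ^ 2 + y ^ 2) (2 * x) x := by
  have h := (hasDerivAt_pow 2 x).add_const (y ^ 2)
  refine h.congr_deriv ?_
  norm_num

theorem p0_der {y : ℝ} (hy : 0 < y) (x : ℝ) : HasDerivAt (p0 y) (p1 y x) x := by
  have hne : x ^ 2 + y ^ 2 ≠ 0 := by positivity
  have h2 := (hasDerivAt_const x (y ^ 2)).div (s_der y x) hne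
  refine h2.congr_deriv ?_
  unfold p1
  congr 1
  ring

theorem p1_der {y : ℝ} (hy : 0 < y) (x : ℝ) : HasDerivAt (p1 y) (p2 y x) x := by
  have hne : x ^ 2 + y ^ 2 ≠ 0 := by positivity
  have h1 : HasDerivAt (fun x : ℝ => -(2 * x * y ^ 2)) (-(2 * y ^ 2)) x := by
    have := (((hasDerivAt_id x).const_mul 2).mul_const (y ^ 2)).neg
    refine this.congr_deriv ?_
    ring
  have h2 : HasDerivAt (fun x : ℝ => (x ^ 2 + y ^ 2) ^ 2) (2 * (x ^ 2 + y ^ 2) * (2 * x)) x := by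
    have := (s_der y x).pow 2
    refine this.congr_deriv ?_
    push_cast
    ring
  have h3 := h1.div h2 (pow_ne_zero 2 hne)
  refine h3.congr_deriv ?_
  unfold p2
  field_simp
  ring

theorem p0_eq (y x : ℝ) : p0 y x = y * w y x := by
  unfold p0 w
  ring

theorem p1_abs (y x : ℝ) : |p1 y x| = 2 * |x| * y ^ 2 / (x ^ 2 + y ^ 2) ^ 2 := by
  unfold p1
  rw [abs_div, abs_neg, abs_mul, abs_mul, abs_of_nonneg (by positivity : (0 : ℝ) ≤ y ^ 2),
    abs_of_nonneg (by positivity : (0 : ℝ) ≤ (x ^ 2 + y ^ 2) ^ 2),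
    abs_of_nonneg (by norm_num : (0 : ℝ) ≤ 2)]

theorem p2_abs {y : ℝ} (hy : 0 < y) (x : ℝ) : |p2 y x| ≤ 6 * y ^ 2 / (x ^ 2 + y ^ 2) ^ 2 := by
  have hs : 0 < x ^ 2 + y ^ 2 := by positivity
  unfold p2
  rw [abs_div, abs_mul, abs_of_nonneg (by positivity : (0 : ℝ) ≤ y ^ 2),
    abs_of_nonneg (by positivity : (0 : ℝ) ≤ (x ^ 2 + y ^ 2) ^ 3)]
  have h1 : |6 * x ^ 2 - 2 * y ^ 2| ≤ 6 * (x ^ 2 + y ^ 2) := by
    rw [abs_le]
    constructor <;> nlinarith [sq_nonneg x, sq_nonneg y]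
  have h2 : y ^ 2 * |6 * x ^ 2 - 2 * y ^ 2| ≤ y ^ 2 * (6 * (x ^ 2 + y ^ 2)) :=
    mul_le_mul_of_nonneg_left h1 (by positivity)
  calc y ^ 2 * |6 * x ^ 2 - 2 * y ^ 2| / (x ^ 2 + y ^ 2) ^ 3
      ≤ y ^ 2 * (6 * (x ^ 2 + y ^ 2)) / (x ^ 2 + y ^ 2) ^ 3 :=
        div_le_div_of_nonneg_right h2 (by positivity)
    _ = 6 * y ^ 2 / (x ^ 2 + y ^ 2) ^ 2 := by
        field_simp

theorem two_mul_le' (y x : ℝ) : 2 * |x| * y ≤ x ^ 2 + y ^ 2 := by
  nlinarith [sq_nonneg (|x| - y), sq_abs x]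

theorem p1_le {y : ℝ} (hy : 0 < y) (x : ℝ) : |p1 y x| ≤ w y x := by
  have hs : 0 < x ^ 2 + y ^ 2 := by positivity
  rw [p1_abs]
  unfold w
  rw [div_le_div_iff₀ (by positivity) hs]
  have h := two_mul_le' y x
  have h2 : 2 * |x| * y ^ 2 ≤ y * (x ^ 2 + y ^ 2) := by nlinarith
  calc 2 * |x| * y ^ 2 * (x ^ 2 + y ^ 2) ≤ y * (x ^ 2 + y ^ 2) * (x ^ 2 + y ^ 2) :=
        mul_le_mul_of_nonneg_right h2 hs.le
    _ = y * (x ^ 2 + y ^ 2) ^ 2 := by ring

theorem p2_le {y : ℝ} (hy : 0 < y) (x : ℝ) : |p2 y x| ≤ 6 / y * w y x := by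
  have hs : 0 < x ^ 2 + y ^ 2 := by positivity
  refine (p2_abs hy x).trans ?_
  unfold w
  have e : 6 / y * (y / (x ^ 2 + y ^ 2)) = 6 / (x ^ 2 + y ^ 2) := by
    field_simp
  rw [e, div_le_div_iff₀ (by positivity) hs]
  nlinarith [sq_nonneg x, mul_nonneg hs.le (sq_nonneg x)]

theorem xp2_le {y : ℝ} (hy : 0 < y) (x : ℝ) : |x| * |p2 y x| ≤ 3 * w y x := by
  have hs : 0 < x ^ 2 + y ^ 2 := by positivity
  have h1 := mul_le_mul_of_nonneg_left (p2_abs hy x) (abs_nonneg x)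
  refine h1.trans ?_
  unfold w
  have h := two_mul_le' y x
  have e : |x| * (6 * y ^ 2 / (x ^ 2 + y ^ 2) ^ 2) = (3 * y * (2 * |x| * y)) / (x ^ 2 + y ^ 2) ^ 2 := by
    ring
  rw [e]
  calc (3 * y * (2 * |x| * y)) / (x ^ 2 + y ^ 2) ^ 2 ≤ (3 * y * (x ^ 2 + y ^ 2)) / (x ^ 2 + y ^ 2) ^ 2 := by
        apply div_le_div_of_nonneg_right _ (by positivity)
        exact mul_le_mul_of_nonneg_left h (by positivity)
    _ = 3 * (y / (x ^ 2 + y ^ 2)) := by
        field_simp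

theorem p0_far {y x : ℝ} (hy : 0 < y) (hx : 1 / 2 ≤ |x|) : p0 y x ≤ 5 * y ^ 2 * (1 + x ^ 2)⁻¹ := by
  have hs : 0 < x ^ 2 + y ^ 2 := by positivity
  have hx2 : 1 / 4 ≤ x ^ 2 := by
    rw [← sq_abs]
    nlinarith
  unfold p0
  rw [← div_eq_mul_inv, div_le_div_iff₀ hs (by positivity)]
  nlinarith [sq_nonneg y, mul_nonneg (sq_nonneg y) (sq_nonneg y),
    mul_nonneg (sq_nonneg y) (by linarith : (0 : ℝ) ≤ x ^ 2 - 1 / 4)]

theorem p1_far {y x : ℝ} (hy : 0 < y) (hx : 1 / 2 ≤ |x|) :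
    |p1 y x| ≤ 20 * y ^ 2 * (1 + x ^ 2)⁻¹ := by
  have hs : 0 < x ^ 2 + y ^ 2 := by positivity
  have hxx : x ^ 2 = |x| ^ 2 := (sq_abs x).symm
  have hx2 : 1 / 4 ≤ x ^ 2 := by
    rw [hxx]
    nlinarith
  rw [p1_abs, ← div_eq_mul_inv, div_le_div_iff₀ (by positivity) (by positivity)]
  have h1 : |x| ≤ 2 * (x ^ 2 + y ^ 2) := by nlinarith [sq_nonneg y]
  have h2 : 1 + x ^ 2 ≤ 5 * (x ^ 2 + y ^ 2) := by nlinarith [sq_nonneg y]
  have h3 : |x| * (1 + x ^ 2) ≤ (2 * (x ^ 2 + y ^ 2)) * (5 * (x ^ 2 + y ^ 2)) :=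
    mul_le_mul h1 h2 (by positivity) (by positivity)
  have h4 := mul_le_mul_of_nonneg_left h3 (by positivity : (0 : ℝ) ≤ 2 * y ^ 2)
  calc 2 * |x| * y ^ 2 * (1 + x ^ 2) = 2 * y ^ 2 * (|x| * (1 + x ^ 2)) := by ring
    _ ≤ 2 * y ^ 2 * ((2 * (x ^ 2 + y ^ 2)) * (5 * (x ^ 2 + y ^ 2))) := h4
    _ = 20 * y ^ 2 * (x ^ 2 + y ^ 2) ^ 2 := by ring

theorem p2_far {y x : ℝ} (hy : 0 < y) (hx : 1 / 2 ≤ |x|) :
    |p2 y x| ≤ 120 * y ^ 2 * (1 + x ^ 2)⁻¹ := by
  have hs : 0 < x ^ 2 + y ^ 2 := by positivity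
  have hxx : x ^ 2 = |x| ^ 2 := (sq_abs x).symm
  have hx2 : 1 / 4 ≤ x ^ 2 := by
    rw [hxx]
    nlinarith
  refine (p2_abs hy x).trans ?_
  rw [← div_eq_mul_inv, div_le_div_iff₀ (by positivity) (by positivity)]
  have h2 : 1 + x ^ 2 ≤ 5 * (x ^ 2 + y ^ 2) := by nlinarith [sq_nonneg y]
  have h3 : 1 ≤ 4 * (x ^ 2 + y ^ 2) := by nlinarith [sq_nonneg y]
  have h4 : 1 * (1 + x ^ 2) ≤ (4 * (x ^ 2 + y ^ 2)) * (5 * (x ^ 2 + y ^ 2)) :=
    mul_le_mul h3 h2 (by positivity) (by positivity)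
  have h5 := mul_le_mul_of_nonneg_left h4 (by positivity : (0 : ℝ) ≤ 6 * y ^ 2)
  calc 6 * y ^ 2 * (1 + x ^ 2) = 6 * y ^ 2 * (1 * (1 + x ^ 2)) := by ring
    _ ≤ 6 * y ^ 2 * ((4 * (x ^ 2 + y ^ 2)) * (5 * (x ^ 2 + y ^ 2))) := h5
    _ = 120 * y ^ 2 * (x ^ 2 + y ^ 2) ^ 2 := by ring

theorem p0_nonneg (y x : ℝ) : 0 ≤ p0 y x := by
  unfold p0
  positivity

theorem p2_cont {y : ℝ} (hy : 0 < y) : Continuous (p2 y) := by
  unfold p2
  exact Continuous.div (by fun_prop) (by fun_prop) fun x => by positivity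

/-! ### The cut-off -/

theorem chi_cd : ContDiff ℝ 2 chi := by
  have h1 : ContDiff ℝ 2 Real.smoothTransition := Real.smoothTransition.contDiff (n := 2)
  have h2 : ContDiff ℝ 2 (fun x : ℝ => 4 / 3 * (1 - x ^ 2)) := by fun_prop
  exact h1.comp h2

theorem chi_one {x : ℝ} (hx : |x| ≤ 1 / 2) : chi x = 1 := by
  apply Real.smoothTransition.one_of_one_le
  have hxx : x ^ 2 = |x| ^ 2 := (sq_abs x).symm
  have := abs_nonneg x
  nlinarith

theorem chi_zero {x : ℝ} (hx : 1 ≤ |x|) : chi x = 0 := by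
  apply Real.smoothTransition.zero_of_nonpos
  have hxx : x ^ 2 = |x| ^ 2 := (sq_abs x).symm
  nlinarith

theorem chi_nonneg (x : ℝ) : 0 ≤ chi x := Real.smoothTransition.nonneg _

theorem chi_le (x : ℝ) : chi x ≤ 1 := Real.smoothTransition.le_one _

theorem chi_hcs : HasCompactSupport chi := hcs fun _ hx => chi_zero hx

theorem chi1_cd : ContDiff ℝ 1 (deriv chi) := by
  have := chi_cd
  rw [show (2 : WithTop ℕ∞) = 1 + 1 by norm_num] at this
  exact (contDiff_succ_iff_deriv.1 this).2.2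

theorem chi_der (x : ℝ) : HasDerivAt chi (deriv chi x) x :=
  (chi_cd.differentiable (by norm_num) x).hasDerivAt

theorem chi1_der (x : ℝ) : HasDerivAt (deriv chi) (deriv (deriv chi) x) x :=
  (chi1_cd.differentiable (by norm_num) x).hasDerivAt

theorem chi2_cont : Continuous (deriv (deriv chi)) := chi1_cd.continuous_deriv le_rfl

theorem loc_const {f : ℝ → ℝ} {U : Set ℝ} (hU : IsOpen U) {c : ℝ} (h : ∀ x ∈ U, f x = c) :
    ∀ x ∈ U, deriv f x = 0 := by
  intro x hx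
  have h1 : f =ᶠ[𝓝 x] fun _ => c := by
    filter_upwards [hU.mem_nhds hx] with z hz
    exact h z hz
  rw [h1.deriv_eq]
  exact deriv_const x c

theorem near {x : ℝ} (hx : |x| < 1 / 2) : deriv chi x = 0 ∧ deriv (deriv chi) x = 0 := by
  have hU : IsOpen {x : ℝ | |x| < 1 / 2} := isOpen_lt continuous_abs continuous_const
  have h1 := loc_const hU (f := chi) (c := 1) fun x hx => chi_one (le_of_lt hx)
  exact ⟨h1 x hx, loc_const hU h1 x hx⟩

theorem far {x : ℝ} (hx : 1 < |x|) : deriv chi x = 0 ∧ deriv (deriv chi) x = 0 := by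
  have hU : IsOpen {x : ℝ | 1 < |x|} := isOpen_lt continuous_const continuous_abs
  have h1 := loc_const hU (f := chi) (c := 0) fun x hx => chi_zero (le_of_lt hx)
  exact ⟨h1 x hx, loc_const hU h1 x hx⟩

theorem chi_K : ∃ K : ℝ, 0 ≤ K ∧ (∀ x, |deriv chi x| ≤ K) ∧ ∀ x, |deriv (deriv chi) x| ≤ K := by
  obtain ⟨C₁, h1⟩ := (chi1_cd.continuous).bounded_above_of_compact_support chi_hcs.deriv
  obtain ⟨C₂, h2⟩ := chi2_cont.bounded_above_of_compact_support chi_hcs.deriv.deriv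
  refine ⟨max (max C₁ C₂) 0, le_max_right _ _, fun x => ?_, fun x => ?_⟩
  · exact (h1 x).trans ((le_max_left _ _).trans (le_max_left _ _))
  · exact (h2 x).trans ((le_max_right _ _).trans (le_max_left _ _))

/-! ### The functions and their bounds -/

/-- first derivative -/
noncomputable def F1 (y x : ℝ) : ℝ := p1 y x * chi x + p0 y x * deriv chi x
/-- second derivative -/
noncomputable def F2 (y x : ℝ) : ℝ :=
  (p2 y x * chi x + p1 y x * deriv chi x) + (p1 y x * deriv chi x + p0 y x * deriv (deriv chi) x)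

theorem F_der {y : ℝ} (hy : 0 < y) (x : ℝ) : HasDerivAt (Fy y) (F1 y x) x :=
  (p0_der hy x).mul (chi_der x)

theorem F1_der {y : ℝ} (hy : 0 < y) (x : ℝ) : HasDerivAt (F1 y) (F2 y x) x :=
  ((p1_der hy x).mul (chi_der x)).add ((p0_der hy x).mul (chi1_der x))

theorem p0_cont {y : ℝ} (hy : 0 < y) : Continuous (p0 y) :=
  continuous_iff_continuousAt.2 fun x => (p0_der hy x).continuousAt

theorem p1_cont {y : ℝ} (hy : 0 < y) : Continuous (p1 y) :=
  continuous_iff_continuousAt.2 fun x => (p1_der hy x).continuousAt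

theorem F_cont {y : ℝ} (hy : 0 < y) : Continuous (Fy y) :=
  continuous_iff_continuousAt.2 fun x => (F_der hy x).continuousAt

theorem F1_cont {y : ℝ} (hy : 0 < y) : Continuous (F1 y) :=
  continuous_iff_continuousAt.2 fun x => (F1_der hy x).continuousAt

theorem F2_cont {y : ℝ} (hy : 0 < y) : Continuous (F2 y) :=
  (((p2_cont hy).mul chi_cd.continuous).add ((p1_cont hy).mul chi1_cd.continuous)).add
    (((p1_cont hy).mul chi1_cd.continuous).add ((p0_cont hy).mul chi2_cont))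

theorem F_supp (y : ℝ) {x : ℝ} (hx : 1 ≤ |x|) : Fy y x = 0 := by
  unfold Fy
  rw [chi_zero hx, mul_zero]

theorem F_c2 {y : ℝ} (hy : 0 < y) : C2c (Fy y) := by
  refine ⟨?_, fun x hx => F_supp y hx⟩
  have h1 : ContDiff ℝ 2 (fun x : ℝ => y ^ 2 / (x ^ 2 + y ^ 2)) :=
    ContDiff.div contDiff_const (by fun_prop) fun x => by positivity
  exact h1.mul chi_cd

theorem F_le {y : ℝ} (x : ℝ) : |Fy y x| ≤ p0 y x := by
  have h : Fy y x = p0 y x * chi x := rfl
  rw [h, abs_of_nonneg (mul_nonneg (p0_nonneg y x) (chi_nonneg x))]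
  exact mul_le_of_le_one_right (p0_nonneg y x) (chi_le x)

theorem abs_chi (x : ℝ) : |chi x| ≤ 1 := by
  rw [abs_of_nonneg (chi_nonneg x)]
  exact chi_le x

theorem mul_b {a b A B : ℝ} (h1 : |a| ≤ A) (h2 : |b| ≤ B) : |a * b| ≤ A * B := by
  rw [abs_mul]
  exact mul_le_mul h1 h2 (abs_nonneg _) ((abs_nonneg _).trans h1)

theorem add_b {a b A B : ℝ} (h1 : |a| ≤ A) (h2 : |b| ≤ B) : |a + b| ≤ A + B :=
  (abs_add_le a b).trans (add_le_add h1 h2)

section bounds

variable {y K : ℝ}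

theorem F1_le (hy : 0 < y) (h1 : ∀ x, |deriv chi x| ≤ K) (x : ℝ) :
    |F1 y x| ≤ (1 + K * y) * w y x := by
  have e : (1 + K * y) * w y x = w y x * 1 + p0 y x * K := by
    rw [p0_eq]
    ring
  rw [e]
  exact add_b (mul_b (p1_le hy x) (abs_chi x))
    (mul_b (abs_of_nonneg (p0_nonneg y x)).le (h1 x))

theorem F2_le (hy : 0 < y) (h1 : ∀ x, |deriv chi x| ≤ K) (h2 : ∀ x, |deriv (deriv chi) x| ≤ K)
    (x : ℝ) : |F2 y x| ≤ (6 / y + 2 * K + K * y) * w y x + 0 * (1 + x ^ 2)⁻¹ := by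
  have e : (6 / y + 2 * K + K * y) * w y x + 0 * (1 + x ^ 2)⁻¹ =
      (6 / y * w y x * 1 + w y x * K) + (w y x * K + p0 y x * K) := by
    rw [p0_eq]
    ring
  rw [e]
  exact add_b (add_b (mul_b (p2_le hy x) (abs_chi x)) (mul_b (p1_le hy x) (h1 x)))
    (add_b (mul_b (p1_le hy x) (h1 x)) (mul_b (abs_of_nonneg (p0_nonneg y x)).le (h2 x)))

theorem xc (hK : 0 ≤ K) (f : ℝ → ℝ) (h1 : ∀ x, |f x| ≤ K) (h2 : ∀ x, 1 < |x| → f x = 0) (x : ℝ) :
    |x * f x| ≤ K := by
  rcases le_or_gt |x| 1 with h | h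
  · have := mul_b h (h1 x)
    rwa [one_mul] at this
  · rw [h2 x h, mul_zero, abs_zero]
    exact hK

theorem xF2_le (hy : 0 < y) (hK : 0 ≤ K) (h1 : ∀ x, |deriv chi x| ≤ K)
    (h2 : ∀ x, |deriv (deriv chi) x| ≤ K) (x : ℝ) :
    |x * F2 y x| ≤ (3 + 2 * K + K * y) * w y x := by
  have e : (3 + 2 * K + K * y) * w y x =
      (3 * w y x * 1 + w y x * K) + (w y x * K + p0 y x * K) := by
    rw [p0_eq]
    ring
  have e2 : x * F2 y x = (x * p2 y x * chi x + p1 y x * (x * deriv chi x)) +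
      (p1 y x * (x * deriv chi x) + p0 y x * (x * deriv (deriv chi) x)) := by
    unfold F2
    ring
  have b1 := xc hK (deriv chi) h1 (fun x hx => (far hx).1) x
  have b2 := xc hK (deriv (deriv chi)) h2 (fun x hx => (far hx).2) x
  have b3 : |x * p2 y x| ≤ 3 * w y x := by
    rw [abs_mul]
    exact xp2_le hy x
  rw [e, e2]
  exact add_b (add_b (mul_b b3 (abs_chi x)) (mul_b (p1_le hy x) b1))
    (add_b (mul_b (p1_le hy x) b1) (mul_b (abs_of_nonneg (p0_nonneg y x)).le b2))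

theorem G2_le (hy : 0 < y) (hK : 0 ≤ K) (h1 : ∀ x, |deriv chi x| ≤ K)
    (h2 : ∀ x, |deriv (deriv chi) x| ≤ K) (x : ℝ) :
    |F1 y x + (F1 y x + x * F2 y x)| ≤ (5 + 2 * K + 3 * (K * y)) * w y x + 0 * (1 + x ^ 2)⁻¹ := by
  have e : (5 + 2 * K + 3 * (K * y)) * w y x + 0 * (1 + x ^ 2)⁻¹ =
      (1 + K * y) * w y x + ((1 + K * y) * w y x + (3 + 2 * K + K * y) * w y x) := by ring
  rw [e]
  exact add_b (F1_le hy h1 x) (add_b (F1_le hy h1 x) (xF2_le hy hK h1 h2 x))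

theorem xp0_le (hy : 0 < y) (x : ℝ) : |x| * p0 y x ≤ y * Real.sqrt y * ((1 + w y x) / 2) := by
  have hs : 0 < x ^ 2 + y ^ 2 := by positivity
  have hw := w_nonneg hy x
  have hc : (y * Real.sqrt y) ^ 2 = y ^ 3 := by
    rw [mul_pow, Real.sq_sqrt hy.le]
    ring
  have h1 : (|x| * p0 y x) ^ 2 ≤ (y * Real.sqrt y) ^ 2 * w y x := by
    rw [hc, mul_pow, sq_abs]
    unfold p0 w
    have e1 : x ^ 2 * (y ^ 2 / (x ^ 2 + y ^ 2)) ^ 2 =
        (x ^ 2 * y ^ 4) / (x ^ 2 + y ^ 2) ^ 2 := by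
      rw [div_pow]
      ring
    have e2 : y ^ 3 * (y / (x ^ 2 + y ^ 2)) = y ^ 4 / (x ^ 2 + y ^ 2) := by ring
    rw [e1, e2, div_le_div_iff₀ (by positivity) hs]
    have h3 : 0 ≤ y ^ 4 * (x ^ 2 + y ^ 2) * y ^ 2 := by positivity
    nlinarith
  have h2 : (y * Real.sqrt y) ^ 2 * w y x ≤ (y * Real.sqrt y * ((1 + w y x) / 2)) ^ 2 := by
    rw [mul_pow (y * Real.sqrt y)]
    apply mul_le_mul_of_nonneg_left _ (by positivity)
    nlinarith [sq_nonneg (1 - w y x)]
  exact le_of_sq_le_sq (h1.trans h2) (by positivity)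

theorem G_le (hy : 0 < y) (x : ℝ) :
    |x * Fy y x| ≤ (1 / 2 * (y * Real.sqrt y)) * w y x + (y * Real.sqrt y) * (1 + x ^ 2)⁻¹ := by
  have hw := w_nonneg hy x
  rcases le_or_gt 1 |x| with h | h
  · rw [F_supp y h, mul_zero, abs_zero]
    positivity
  · rw [abs_mul]
    have h1 := mul_le_mul_of_nonneg_left (F_le (y := y) x) (abs_nonneg x)
    refine (h1.trans (xp0_le hy x)).trans ?_
    have h2 : 1 / 2 ≤ (1 + x ^ 2)⁻¹ := by
      rw [← one_div]
      apply one_div_le_one_div_of_le (by positivity)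
      nlinarith [sq_abs x, abs_nonneg x]
    have h3 := mul_le_mul_of_nonneg_left h2 (by positivity : (0 : ℝ) ≤ y * Real.sqrt y)
    linarith

/-- the far part of the kernel -/
noncomputable def D0 (y x : ℝ) : ℝ := p0 y x * (1 - chi x)
/-- its derivative -/
noncomputable def D1 (y x : ℝ) : ℝ := p1 y x * (1 - chi x) + p0 y x * (-deriv chi x)
/-- its second derivative -/
noncomputable def D2 (y x : ℝ) : ℝ := (p2 y x * (1 - chi x) + p1 y x * (-deriv chi x)) +
  (p1 y x * (-deriv chi x) + p0 y x * (-deriv (deriv chi) x))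

theorem D0_der (hy : 0 < y) (x : ℝ) : HasDerivAt (D0 y) (D1 y x) x :=
  (p0_der hy x).mul ((chi_der x).const_sub 1)

theorem D1_der (hy : 0 < y) (x : ℝ) : HasDerivAt (D1 y) (D2 y x) x :=
  ((p1_der hy x).mul ((chi_der x).const_sub 1)).add ((p0_der hy x).mul ((chi1_der x).neg))

theorem D2_cont (hy : 0 < y) : Continuous (D2 y) :=
  (((p2_cont hy).mul (continuous_const.sub chi_cd.continuous)).add
    ((p1_cont hy).mul chi1_cd.continuous.neg)).add
    (((p1_cont hy).mul chi1_cd.continuous.neg).add ((p0_cont hy).mul chi2_cont.neg))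

theorem abs_chi' (x : ℝ) : |1 - chi x| ≤ 1 := by
  have h1 := chi_nonneg x
  have h2 := chi_le x
  rw [abs_of_nonneg (by linarith)]
  linarith

theorem D0_le (hy : 0 < y) (x : ℝ) : |D0 y x| ≤ 0 * w y x + (5 * y ^ 2) * (1 + x ^ 2)⁻¹ := by
  rw [zero_mul, zero_add]
  unfold D0
  rcases lt_or_ge |x| (1 / 2) with h | h
  · rw [chi_one h.le, sub_self, mul_zero, abs_zero]
    positivity
  · have h1 := p0_far hy h
    rw [← abs_of_nonneg (p0_nonneg y x)] at h1
    have := mul_b h1 (abs_chi' x)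
    rwa [mul_one] at this

theorem D1_le (hy : 0 < y) (hK : 0 ≤ K) (h1 : ∀ x, |deriv chi x| ≤ K) (x : ℝ) :
    |D1 y x| ≤ 0 * w y x + ((20 + 5 * K) * y ^ 2) * (1 + x ^ 2)⁻¹ := by
  rw [zero_mul, zero_add]
  unfold D1
  rcases lt_or_ge |x| (1 / 2) with h | h
  · rw [chi_one h.le, sub_self, mul_zero, (near h).1, neg_zero, mul_zero, add_zero, abs_zero]
    positivity
  · have a0 := p0_far hy h
    rw [← abs_of_nonneg (p0_nonneg y x)] at a0
    have a1 := p1_far hy h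
    have a2 : |-deriv chi x| ≤ K := by rw [abs_neg]; exact h1 x
    refine (add_b (mul_b a1 (abs_chi' x)) (mul_b a0 a2)).trans (le_of_eq ?_)
    ring

theorem D2_le (hy : 0 < y) (hK : 0 ≤ K) (h1 : ∀ x, |deriv chi x| ≤ K)
    (h2 : ∀ x, |deriv (deriv chi) x| ≤ K) (x : ℝ) :
    |D2 y x| ≤ 0 * w y x + ((120 + 45 * K) * y ^ 2) * (1 + x ^ 2)⁻¹ := by
  rw [zero_mul, zero_add]
  unfold D2
  rcases lt_or_ge |x| (1 / 2) with h | h
  · rw [chi_one h.le, sub_self, mul_zero, (near h).1, (near h).2, neg_zero, mul_zero, mul_zero,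
      add_zero, add_zero, abs_zero]
    positivity
  · have a0 := p0_far hy h
    rw [← abs_of_nonneg (p0_nonneg y x)] at a0
    have a1 := p1_far hy h
    have a2 := p2_far hy h
    have b1 : |-deriv chi x| ≤ K := by rw [abs_neg]; exact h1 x
    have b2 : |-deriv (deriv chi) x| ≤ K := by rw [abs_neg]; exact h2 x
    refine (add_b (add_b (mul_b a2 (abs_chi' x)) (mul_b a1 b1))
      (add_b (mul_b a1 b1) (mul_b a0 b2))).trans (le_of_eq ?_)
    ring

end bounds

/-- **S_KB.** -/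
theorem kb_proof : S_KB := by
  obtain ⟨K, hK, h1, h2⟩ := chi_K
  have hpi := Real.pi_pos
  refine ⟨(125 + 45 * K) * Real.pi, by positivity, fun y hy hy2 => ?_⟩
  have hKy : K * y ≤ 2 * K := by nlinarith
  have hKy0 : 0 ≤ K * y := by positivity
  have hcs' : HasCompactSupport (Fy y) := hcs fun x hx => F_supp y hx
  have hFc := F_cont hy
  have hFi : Integrable (Fy y) := hFc.integrable_of_hasCompactSupport hcs'
  have dF : deriv (Fy y) = F1 y := funext fun x => (F_der hy x).deriv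
  have dF1 : deriv (F1 y) = F2 y := funext fun x => (F1_der hy x).deriv
  -- L1 bounds
  have n1 : ∫ x : ℝ, |Fy y x| ≤ y * Real.pi := by
    have := dom hy (Fy y) y 0 fun x => by
      rw [zero_mul, add_zero, ← p0_eq]
      exact F_le x
    rwa [add_zero] at this
  have n2 : ∫ x : ℝ, |F2 y x| ≤ (6 + 8 * K) * Real.pi / y := by
    have h3 := dom hy (F2 y) (6 / y + 2 * K + K * y) 0 (F2_le hy h1 h2)
    refine h3.trans ?_
    rw [le_div_iff₀ hy]
    have e : (6 / y + 2 * K + K * y + 0) * Real.pi * y =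
        (6 + 2 * (K * y) + (K * y) * y) * Real.pi := by
      field_simp
      ring
    rw [e]
    apply mul_le_mul_of_nonneg_right _ hpi.le
    nlinarith
  have n3 : ∫ x : ℝ, |x * Fy y x| ≤ (3 / 2 * Real.pi) * (y * Real.sqrt y) := by
    have h3 := dom hy (fun x => x * Fy y x) (1 / 2 * (y * Real.sqrt y)) (y * Real.sqrt y) (G_le hy)
    refine h3.trans (le_of_eq ?_)
    ring
  have n4 : ∫ x : ℝ, |F1 y x + (F1 y x + x * F2 y x)| ≤ (5 + 8 * K) * Real.pi := by
    have h3 := dom hy (fun x => F1 y x + (F1 y x + x * F2 y x)) (5 + 2 * K + 3 * (K * y)) 0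
      (G2_le hy hK h1 h2)
    refine h3.trans ?_
    apply mul_le_mul_of_nonneg_right _ hpi.le
    linarith
  have n5 : ∫ x : ℝ, |D0 y x| ≤ (0 + 5 * y ^ 2) * Real.pi := dom hy (D0 y) _ _ (D0_le hy)
  have n6 : ∫ x : ℝ, |D2 y x| ≤ (0 + (120 + 45 * K) * y ^ 2) * Real.pi :=
    dom hy (D2 y) _ _ (D2_le hy hK h1 h2)
  -- compact supports
  have hGc : Continuous (fun x => x * Fy y x) := continuous_id.mul hFc
  have hGs : HasCompactSupport (fun x => x * Fy y x) := hcs'.mul_left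
  have dG : ∀ x, HasDerivAt (fun x => x * Fy y x) (Fy y x + x * F1 y x) x := fun x => by
    refine ((hasDerivAt_id x).mul (F_der hy x)).congr_deriv ?_
    simp only [id]
    ring
  have dG1 : ∀ x, HasDerivAt (fun x => Fy y x + x * F1 y x) (F1 y x + (F1 y x + x * F2 y x)) x :=
    fun x => by
      refine ((F_der hy x).add ((hasDerivAt_id x).mul (F1_der hy x))).congr_deriv ?_
      simp only [id]
      ring
  have iF1 : Integrable (F1 y) := by
    rw [← dF]
    exact (dF ▸ F1_cont hy).integrable_of_hasCompactSupport hcs'.deriv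
  have iF2 : Integrable (F2 y) := by
    have h3 : HasCompactSupport (F2 y) := by
      rw [← dF1, ← dF]
      exact hcs'.deriv.deriv
    exact (F2_cont hy).integrable_of_hasCompactSupport h3
  have iG : Integrable (fun x => x * Fy y x) := hGc.integrable_of_hasCompactSupport hGs
  have hs1 : HasCompactSupport (F1 y) := by
    rw [← dF]
    exact hcs'.deriv
  have hs2 : HasCompactSupport (F2 y) := by
    rw [← dF1]
    exact hs1.deriv
  have iG1 : Integrable (fun x => Fy y x + x * F1 y x) := by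
    have h3 : Integrable (fun x => x * F1 y x) :=
      (continuous_id.mul (F1_cont hy)).integrable_of_hasCompactSupport hs1.mul_left
    exact hFi.add h3
  have iG2 : Integrable (fun x => F1 y x + (F1 y x + x * F2 y x)) := by
    have h3 : Integrable (fun x => x * F2 y x) :=
      (continuous_id.mul (F2_cont hy)).integrable_of_hasCompactSupport hs2.mul_left
    exact iF1.add (iF1.add h3)
  have hdFF := FF_deriv hFc hcs'
  refine ⟨F_c2 hy, ?_, ?_, (FF_cont hFc hcs').continuousOn, ?_, fun ξ hξ => ?_⟩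
  · refine n1.trans ?_
    nlinarith [mul_pos hpi hy, mul_nonneg hK (mul_pos hpi hy).le]
  · rw [dF, dF1]
    refine n2.trans ?_
    apply div_le_div_of_nonneg_right _ hy.le
    apply mul_le_mul_of_nonneg_right _ hpi.le
    linarith
  · rw [hdFF]
    exact (continuous_const.mul (FF_cont hGc hGs)).continuousOn
  · have hξ2 : 0 < ξ ^ 2 := by positivity
    refine ⟨?_, ?_, ?_, ?_, ?_⟩
    · refine ((le_l1 ξ).trans n1).trans ?_
      nlinarith [mul_pos hpi hy, mul_nonneg hK (mul_pos hpi hy).le]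
    · have h3 := (FF_two (F_der hy) (F1_der hy) hFi iF1 iF2 ξ).trans n2
      rw [le_div_iff₀ hy] at h3
      rw [le_div_iff₀ (by positivity)]
      have h4 : (6 + 8 * K) * Real.pi ≤ (125 + 45 * K) * Real.pi :=
        mul_le_mul_of_nonneg_right (by linarith) hpi.le
      calc ‖FF (Fy y) ξ‖ * (y * ξ ^ 2) = ξ ^ 2 * ‖FF (Fy y) ξ‖ * y := by ring
        _ ≤ (6 + 8 * K) * Real.pi := h3
        _ ≤ _ := h4
    · rw [hdFF]
      simp only
      rw [norm_mul, norm_neg, Complex.norm_I, one_mul]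
      refine ((le_l1 ξ).trans n3).trans ?_
      apply mul_le_mul_of_nonneg_right _ (by positivity)
      nlinarith [mul_nonneg hK hpi.le]
    · rw [hdFF]
      simp only
      rw [norm_mul, norm_neg, Complex.norm_I, one_mul, le_div_iff₀ hξ2, mul_comm]
      refine ((FF_two dG dG1 iG iG1 iG2 ξ).trans n4).trans ?_
      exact mul_le_mul_of_nonneg_right (by linarith) hpi.le
    · have iD0 : Integrable (D0 y) :=
        dom_int hy (D0 y) (continuous_iff_continuousAt.2 fun x => (D0_der hy x).continuousAt) _ _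
          (D0_le hy)
      have iD1 : Integrable (D1 y) :=
        dom_int hy (D1 y) (continuous_iff_continuousAt.2 fun x => (D1_der hy x).continuousAt) _ _
          (D1_le hy hK h1)
      have iD2 : Integrable (D2 y) := dom_int hy (D2 y) (D2_cont hy) _ _ (D2_le hy hK h1 h2)
      have hp0 : p0 y = fun x => y * w y x := funext fun x => p0_eq y x
      have ip0 : Integrable (p0 y) := by
        rw [hp0]
        exact (w_int hy).const_mul y
      have e1 : FF (Fy y) ξ = FF (p0 y) ξ - FF (D0 y) ξ := by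
        unfold FF
        rw [← integral_sub (int_e ip0 ξ) (int_e iD0 ξ)]
        congr 1
        funext s
        have h3 : Fy y s = p0 y s - D0 y s := by
          have h4 : Fy y s = p0 y s * chi s := rfl
          rw [h4]
          unfold D0
          ring
        rw [h3]
        push_cast
        ring
      have e2 : FF (p0 y) ξ = (y : ℂ) * FF (w y) ξ := by
        unfold FF
        rw [← integral_const_mul]
        congr 1
        funext s
        rw [p0_eq]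
        push_cast
        ring
      have e3 : FF (Fy y) ξ - ((Real.pi * y * Real.exp (-(y * ξ)) : ℝ) : ℂ) = -FF (D0 y) ξ := by
        rw [e1, e2, FF_w hy ξ hξ]
        push_cast
        ring
      rw [e3, norm_neg, le_div_iff₀ (by positivity)]
      have h5 := (FF_two (D0_der hy) (D1_der hy) iD0 iD1 iD2 ξ).trans n6
      have h6 := (le_l1 (F := D0 y) ξ).trans n5
      nlinarith

end Pool.Agent.H331.GA
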